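import Pool.Agent.helper32.QS.Spec

set_option autoImplicit false

open scoped BigOperators commutatorElement

namespace QS

/-- Minimal normal subgroups of a finite solvable group are abelian. -/
theorem RED_ab {G : Type} [Group G] [Finite G] (hG : Group.IsSolvable G) (M : Subgroup G)
    (hM : M.Normal) (hne : M ≠ ⊥)
    (hmin : ∀ L : Subgroup G, L.Normal → L ≤ M → L = ⊥ ∨ L = M) :
    M ≤ Subgroup.centralizer (M : Set G) := by
  have := hG
  have := hM
  have h1 : ⁅M, M⁆ < M := Group.IsSolvable.commutator_lt_of_ne_bot hne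
  rcases hmin ⁅M, M⁆ inferInstance h1.le with h2 | h2
  · exact Subgroup.commutator_eq_bot_iff_le_centralizer.1 h2
  · exact absurd h2 h1.ne

/-- The subgroup of `p`-elements of an abelian normal subgroup. -/
theorem RED_pab {G : Type} [Group G] [Finite G] (p : ℕ) (hp : p.Prime)
    (hP : ∀ P : Subgroup G, P.Normal → IsPGroup p P → P = ⊥)
    (B : Subgroup G) (hB : B.Normal) (hab : ∀ x ∈ B, ∀ y ∈ B, x * y = y * x) :
    ¬ p ∣ Nat.card B := by
  intro hd
  have : Fact p.Prime := ⟨hp⟩
  obtain ⟨x, hx⟩ := exists_prime_orderOf_dvd_card' (G := B) p hd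
  let P : Subgroup G :=
    { carrier := {x | x ∈ B ∧ ∃ k : ℕ, x ^ p ^ k = 1}
      one_mem' := ⟨B.one_mem, 0, one_pow _⟩
      mul_mem' := by
        rintro a b ⟨ha, k, hk⟩ ⟨hb, l, hl⟩
        refine ⟨B.mul_mem ha hb, k + l, ?_⟩
        have hc : Commute a b := hab a ha b hb
        rw [hc.mul_pow, pow_add, pow_mul, hk, one_pow, one_mul, mul_comm (p ^ k) (p ^ l), pow_mul,
          hl, one_pow]
      inv_mem' := by
        rintro a ⟨ha, k, hk⟩
        exact ⟨B.inv_mem ha, k, by rw [inv_pow, hk, inv_one]⟩ }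
  have hPn : P.Normal := by
    refine ⟨?_⟩
    rintro a ⟨ha, k, hk⟩ g
    refine ⟨hB.conj_mem a ha g, k, ?_⟩
    rw [conj_pow, hk, mul_one, mul_inv_cancel]
  have hPp : IsPGroup p P := by
    rintro ⟨a, ha, k, hk⟩
    exact ⟨k, Subtype.ext hk⟩
  have hb := hP P hPn hPp
  have hxP : (x : G) ∈ P := by
    refine ⟨x.2, 1, ?_⟩
    have := pow_orderOf_eq_one x
    rw [hx] at this
    rw [pow_one]
    exact_mod_cast congrArg Subtype.val this
  rw [hb, Subgroup.mem_bot] at hxP
  have : x = 1 := Subtype.ext hxP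
  rw [this, orderOf_one] at hx
  exact hp.one_lt.ne hx

theorem RED_key {G : Type} [Group G] [Finite G] (p : ℕ) (hp : p.Prime)
    (hP : ∀ P : Subgroup G, P.Normal → IsPGroup p P → P = ⊥)
    (M W : Subgroup G) (hMn : M.Normal) (hWn : W.Normal) (hM : ¬ p ∣ Nat.card M)
    (hmin : ∀ L : Subgroup G, L.Normal → L ≤ M → L = ⊥ ∨ L = M)
    (hMW : M < W) (r : ℕ) (hr : M.relIndex W = p ^ r) :
    M ⊓ Subgroup.centralizer (W : Set G) = ⊥ ∧
      ∀ Y : Subgroup G, Y.Normal → ¬ p ∣ Nat.card Y → M ≤ Y → (∀ m ∈ M, ∀ y ∈ Y, m * y = y * m) →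
        M ⊔ (Y ⊓ Subgroup.centralizer (W : Set G)) = Y := by
  have : Fact p.Prime := ⟨hp⟩
  have := hMn
  have := hWn
  have hcard : Nat.card W = Nat.card M * p ^ r := by
    have h := Subgroup.relIndex_mul_relIndex ⊥ M W bot_le hMW.le
    rw [Subgroup.relIndex_bot_left, Subgroup.relIndex_bot_left, hr] at h
    exact h.symm
  obtain ⟨R⟩ : Nonempty (Sylow p W) := inferInstance
  have hRc : Nat.card (R : Subgroup W) = p ^ r := by
    rw [Sylow.card_eq_multiplicity, hcard,
      Nat.factorization_mul (Nat.card_pos.ne') (pow_pos hp.pos r).ne', Finsupp.add_apply,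
      Nat.factorization_eq_zero_of_not_dvd hM, hp.factorization_pow]
    simp
  have hMsub : Nat.card (M.subgroupOf W) = Nat.card M :=
    Nat.card_congr (Subgroup.subgroupOfEquivOfLe hMW.le).toEquiv
  have hcop : Nat.Coprime (Nat.card (R : Subgroup W)) (Nat.card (M.subgroupOf W)) := by
    rw [hRc, hMsub]
    exact Nat.Coprime.pow_left r ((Nat.Prime.coprime_iff_not_dvd hp).2 hM)
  have hcompl : Subgroup.IsComplement' (R : Subgroup W) (M.subgroupOf W) := by
    refine Subgroup.isComplement'_of_coprime ?_ hcop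
    rw [hRc, hMsub, hcard, mul_comm]
  have hdec : ∀ w : W, ∃ a ∈ (R : Subgroup W), ∃ m ∈ M.subgroupOf W, a * m = w := by
    intro w
    obtain ⟨x, hx, -⟩ := Subgroup.IsComplement.existsUnique (Subgroup.isComplement'_def.1 hcompl) w
    exact ⟨x.1, x.1.2, x.2, x.2.2, hx⟩
  have hr0 : r ≠ 0 := by
    rintro rfl
    rw [pow_zero, Subgroup.relIndex_eq_one] at hr
    exact absurd hr (not_le_of_gt hMW)
  constructor
  · have : (Subgroup.centralizer (W : Set G)).Normal := Subgroup.normal_centralizer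
    rcases hmin (M ⊓ Subgroup.centralizer (W : Set G)) inferInstance inf_le_left with h | h
    · exact h
    · exfalso
      have hMc : M ≤ Subgroup.centralizer (W : Set G) := by
        rw [← h]; exact inf_le_right
      have hRn : (R : Subgroup W).Normal := by
        refine ⟨?_⟩
        intro a ha w
        obtain ⟨b, hb, m, hm, rfl⟩ := hdec w
        have hma : m * a = a * m := by
          apply Subtype.ext
          have := Subgroup.mem_centralizer_iff.1 (hMc (Subgroup.mem_subgroupOf.1 hm)) (a : G) a.2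
          simpa using this.symm
        have : b * m * a * (b * m)⁻¹ = b * a * b⁻¹ := by
          rw [mul_assoc b m a, hma]
          group
        rw [this]
        exact (R : Subgroup W).mul_mem ((R : Subgroup W).mul_mem hb ha)
          ((R : Subgroup W).inv_mem hb)
      have : (R : Subgroup W).Characteristic := Sylow.characteristic_of_normal R hRn
      have h2 : ((R : Subgroup W).map W.subtype).Normal :=
        ConjAct.normal_of_characteristic_of_normal
      have h3 : IsPGroup p ((R : Subgroup W).map W.subtype) := R.isPGroup'.map _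
      have h4 := hP _ h2 h3
      rw [Subgroup.map_eq_bot_iff_of_injective _ (Subgroup.subtype_injective W)] at h4
      rw [h4, Subgroup.card_bot] at hRc
      exact hr0 ((Nat.pow_eq_one.1 hRc.symm).resolve_left hp.one_lt.ne')
  · intro Y hYn hYp hMY hcen
    have := hYn
    apply le_antisymm (sup_le hMY inf_le_left)
    intro y hy
    have hfr := Sylow.normalizer_sup_eq_top (N := W) R
    have hy1 : y ∈ Subgroup.normalizer (((R : Subgroup W).map W.subtype : Subgroup G) : Set G) ⊔ W := by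
      rw [hfr]; trivial
    obtain ⟨n, hn, w, hw, rfl⟩ := Subgroup.mem_sup_of_normal_right.1 hy1
    obtain ⟨a, ha, m, hm, hamw⟩ := hdec ⟨w, hw⟩
    have hw' : (a : G) * (m : G) = w := congrArg Subtype.val hamw
    have hmM : (m : G) ∈ M := Subgroup.mem_subgroupOf.1 hm
    have haR : (a : G) ∈ (R : Subgroup W).map W.subtype := ⟨a, ha, rfl⟩
    have hn' : n * (a : G) ∈ Subgroup.normalizer (((R : Subgroup W).map W.subtype : Subgroup G) : Set G) :=
      Subgroup.mul_mem _ hn (Subgroup.le_normalizer haR)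
    have hn'Y : n * (a : G) ∈ Y := by
      have : n * (a : G) = n * w * (m : G)⁻¹ := by rw [← hw']; group
      rw [this]
      exact Y.mul_mem hy (Y.inv_mem (hMY hmM))
    have hcomR : ∀ b ∈ (R : Subgroup W).map W.subtype, (n * (a : G)) * b = b * (n * (a : G)) := by
      intro b hb
      set g := n * (a : G) with hg
      have h1 : g * b * g⁻¹ ∈ (R : Subgroup W).map W.subtype :=
        (Subgroup.mem_normalizer_iff.1 hn' b).1 hb
      have h2 : g * b * g⁻¹ * b⁻¹ ∈ (R : Subgroup W).map W.subtype :=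
        Subgroup.mul_mem _ h1 (Subgroup.inv_mem _ hb)
      have h3 : g * b * g⁻¹ * b⁻¹ ∈ Y := by
        have : g * b * g⁻¹ * b⁻¹ = g * (b * g⁻¹ * b⁻¹) := by group
        rw [this]
        exact Y.mul_mem hn'Y (hYn.conj_mem _ (Y.inv_mem hn'Y) b)
      have h4 : g * b * g⁻¹ * b⁻¹ = 1 := by
        have hpg : IsPGroup p ((R : Subgroup W).map W.subtype) := R.isPGroup'.map _
        obtain ⟨k, hk⟩ := (IsPGroup.iff_orderOf.1 hpg) ⟨_, h2⟩
        have h5 : orderOf (g * b * g⁻¹ * b⁻¹) = p ^ k := by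
          rw [← hk, Subgroup.orderOf_mk]
        have h6 : orderOf (g * b * g⁻¹ * b⁻¹) ∣ Nat.card Y := by
          have := orderOf_dvd_natCard (⟨_, h3⟩ : Y)
          rwa [Subgroup.orderOf_mk] at this
        rcases Nat.eq_zero_or_pos k with hk0 | hk0
        · rw [hk0, pow_zero] at h5
          exact orderOf_eq_one_iff.1 h5
        · exfalso
          apply hYp
          exact (dvd_pow_self p hk0.ne').trans (h5 ▸ h6)
      have h5 : g * b * g⁻¹ = b := by
        rw [mul_inv_eq_one] at h4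
        exact h4
      calc g * b = (g * b * g⁻¹) * g := by group
        _ = b * g := by rw [h5]
    have hcomW : n * (a : G) ∈ Subgroup.centralizer (W : Set G) := by
      rw [Subgroup.mem_centralizer_iff]
      intro w' hw'
      obtain ⟨b, hb, m', hm', hbm⟩ := hdec ⟨w', hw'⟩
      have hbm' : (b : G) * (m' : G) = w' := congrArg Subtype.val hbm
      have h1 := hcomR b ⟨b, hb, rfl⟩
      have h2 := hcen (m' : G) (Subgroup.mem_subgroupOf.1 hm') (n * (a : G)) hn'Y
      rw [← hbm', mul_assoc, h2, ← mul_assoc, ← h1, mul_assoc]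
    have : n * w = (m : G) * (n * (a : G)) := by
      rw [hcen (m : G) hmM (n * (a : G)) hn'Y, ← hw', mul_assoc]
    rw [this]
    exact Subgroup.mul_mem_sup hmM ⟨hn'Y, hcomW⟩

/-- Existence of a minimal normal subgroup below a nontrivial normal subgroup. -/
theorem RED_exmin {G : Type} [Group G] [Finite G] (L : Subgroup G) (hL : L.Normal) (hne : L ≠ ⊥) :
    ∃ M : Subgroup G, M.Normal ∧ M ≠ ⊥ ∧ M ≤ L ∧
      ∀ K : Subgroup G, K.Normal → K ≤ M → K = ⊥ ∨ K = M := by
  have hfin : ({M : Subgroup G | M.Normal ∧ M ≠ ⊥ ∧ M ≤ L} : Set (Subgroup G)).Finite :=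
    Set.toFinite _
  obtain ⟨M, hM, hmin⟩ := Set.exists_min_image _ (fun M : Subgroup G => Nat.card M) hfin
    ⟨L, hL, hne, le_rfl⟩
  refine ⟨M, hM.1, hM.2.1, hM.2.2, ?_⟩
  intro K hK hKM
  by_cases h : K = ⊥
  · exact Or.inl h
  · right
    exact Subgroup.eq_of_le_of_card_ge hKM (hmin K ⟨hK, h, hKM.trans hM.2.2⟩)

theorem RED (hNQL : NQL_stmt) : RED_stmt := by
  intro G _ _ p hp hG hP hW
  have : Fact p.Prime := ⟨hp⟩
  -- the set of minimal normal subgroups
  set S : Set (Subgroup G) := {M | M.Normal ∧ M ≠ ⊥ ∧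
    ∀ L : Subgroup G, L.Normal → L ≤ M → L = ⊥ ∨ L = M} with hS
  set N : Subgroup G := sSup S with hN
  have hSN : ∀ M ∈ S, M ≤ N := fun M hM => le_sSup hM
  have hNn : N.Normal := Subgroup.sSup_normal S fun M hM => hM.1
  -- pairwise commuting
  have hcomm : ∀ M ∈ S, ∀ M' ∈ S, M' ≤ Subgroup.centralizer (M : Set G) := by
    intro M hM M' hM'
    by_cases h : M = M'
    · subst h
      exact RED_ab hG M hM.1 hM.2.1 hM.2.2
    · have h1 := hM.1
      have h2 := hM'.1
      have hbot : M ⊓ M' = ⊥ := by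
        rcases hM.2.2 (M ⊓ M') inferInstance inf_le_left with h3 | h3
        · exact h3
        · exfalso
          have h4 : M ≤ M' := by rw [← h3]; exact inf_le_right
          rcases hM'.2.2 M h1 h4 with h5 | h5
          · exact hM.2.1 h5
          · exact h h5
      intro x hx
      rw [Subgroup.mem_centralizer_iff]
      intro y hy
      exact Subgroup.commute_of_normal_of_disjoint M M' h1 h2 (disjoint_iff.2 hbot) y x hy hx
  have hNab' : N ≤ Subgroup.centralizer (N : Set G) := by
    apply sSup_le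
    intro M hM
    rw [Subgroup.le_centralizer_iff]
    apply sSup_le
    intro M' hM'
    exact hcomm M hM M' hM'
  have hNab : ∀ x ∈ N, ∀ y ∈ N, x * y = y * x := by
    intro x hx y hy
    exact Subgroup.mem_centralizer_iff.1 (hNab' hy) x hx
  have hNp : ¬ p ∣ Nat.card N := RED_pab p hp hP N hNn hNab
  have hMp : ∀ M : Subgroup G, M ≤ N → ¬ p ∣ Nat.card M := fun M hM h =>
    hNp (h.trans (Subgroup.card_dvd_of_le hM))
  -- the key for a minimal normal subgroup
  have hkey : ∀ M ∈ S, ∃ C : Subgroup G, C.Normal ∧ M ⊓ C = ⊥ ∧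
      ∀ Y : Subgroup G, Y.Normal → ¬ p ∣ Nat.card Y → M ≤ Y → (∀ m ∈ M, ∀ y ∈ Y, m * y = y * m) →
        M ⊔ (Y ⊓ C) = Y := by
    intro M hM
    obtain ⟨W, hWn, hMW, r, hr⟩ := hW M hM.1 hM.2.1 (hMp M (hSN M hM))
    have h := RED_key p hp hP M W hM.1 hWn (hMp M (hSN M hM)) hM.2.2 hMW r hr
    have := hWn
    exact ⟨Subgroup.centralizer (W : Set G), Subgroup.normal_centralizer, h.1, h.2⟩
  refine ⟨N, hNn, hNab, hNp, ?_, ?_⟩
  · -- `C_G(N) ≤ N`
    by_contra hcon
    push Not at hcon
    obtain ⟨x, hx, hxN⟩ := hcon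
    have hCn : (Subgroup.centralizer (N : Set G)).Normal := Subgroup.normal_centralizer
    obtain ⟨l, Q, hl, hQn, hQl, hQC, hQN, -⟩ := hNQL G hG N (Subgroup.centralizer (N : Set G)) hNn
      hCn hNab' (fun z hz c hc => Subgroup.mem_centralizer_iff.1 hc z hz)
      (fun h => hxN (h (Subgroup.mem_centralizer_iff.2 fun y hy => (hx y hy).symm)))
    have hlp : l ≠ p := by
      rintro rfl
      have := hP Q hQn hQl
      rw [this] at hQN
      exact hQN bot_le
    set Y : Subgroup G := N ⊔ Q with hY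
    have hYn : Y.Normal := Subgroup.sup_normal N Q
    have hYp : ¬ p ∣ Nat.card Y := by
      intro hd
      have h1 := Subgroup.relIndex_mul_relIndex ⊥ N Y bot_le le_sup_left
      rw [Subgroup.relIndex_bot_left, Subgroup.relIndex_bot_left, hY,
        Subgroup.relIndex_sup_left, ← hY] at h1
      rw [← h1] at hd
      rcases (hp.dvd_mul).1 hd with h2 | h2
      · exact hNp h2
      · have h3 : N.relIndex Q ∣ Nat.card Q := Subgroup.index_dvd_card _
        have h4 := h2.trans h3
        have : Fact l.Prime := ⟨hl⟩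
        obtain ⟨k, hk⟩ := (IsPGroup.iff_card).1 hQl
        rw [hk] at h4
        exact hlp ((Nat.prime_dvd_prime_iff_eq hp hl).1 (hp.dvd_of_dvd_pow h4)).symm
    have hNY : ∀ z ∈ N, ∀ y ∈ Y, z * y = y * z := by
      have h1 : Y ≤ Subgroup.centralizer (N : Set G) := sup_le hNab' hQC
      intro z hz y hy
      exact Subgroup.mem_centralizer_iff.1 (h1 hy) z hz
    -- a minimal supplement
    have hfin : ({L : Subgroup G | L.Normal ∧ L ≤ Y ∧ N ⊔ L = Y} : Set (Subgroup G)).Finite :=
      Set.toFinite _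
    obtain ⟨L, hL, hLmin⟩ := Set.exists_min_image _ (fun M : Subgroup G => Nat.card M) hfin
      ⟨Y, hYn, le_rfl, sup_eq_right.2 le_sup_left⟩
    have hLne : L ≠ ⊥ := by
      rintro rfl
      have h1 := hL.2.2
      rw [sup_bot_eq] at h1
      apply hQN
      rw [h1]
      exact le_sup_right
    obtain ⟨M, hMn, hMne, hML, hMmin⟩ := RED_exmin L hL.1 hLne
    have hMS : M ∈ S := ⟨hMn, hMne, hMmin⟩
    obtain ⟨C, hC, hMC, hsup⟩ := hkey M hMS
    have h1 := hsup Y hYn hYp (hML.trans hL.2.1) (fun m hm y hy => hNY m (hSN M hMS hm) y hy)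
    have hLn := hL.1
    have h2 : M ⊔ (L ⊓ C) = L := by
      apply le_antisymm (sup_le hML inf_le_left)
      intro x hx
      have hxY : x ∈ M ⊔ (Y ⊓ C) := by rw [h1]; exact hL.2.1 hx
      obtain ⟨m, hm, c, hc, rfl⟩ := Subgroup.mem_sup_of_normal_right.1 hxY
      have hcL : c ∈ L := by
        have : c = m⁻¹ * (m * c) := by group
        rw [this]
        exact L.mul_mem (L.inv_mem (hML hm)) hx
      exact Subgroup.mul_mem_sup hm ⟨hcL, hc.2⟩
    have h3 : N ⊔ (L ⊓ C) = Y := by
      calc N ⊔ (L ⊓ C) = (N ⊔ M) ⊔ (L ⊓ C) := by rw [sup_eq_left.2 (hSN M hMS)]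
        _ = N ⊔ L := by rw [sup_assoc, h2]
        _ = Y := hL.2.2
    have h4 : L ⊓ C = L :=
      Subgroup.eq_of_le_of_card_ge inf_le_left
        (hLmin (L ⊓ C) ⟨inferInstance, inf_le_left.trans hL.2.1, h3⟩)
    have h5 : M ≤ C := by
      have : L ≤ C := by rw [← h4]; exact inf_le_right
      exact hML.trans this
    apply hMne
    rw [← hMC]
    exact (inf_eq_left.2 h5).symm
  · intro M hMn hMne hMN hMmin
    obtain ⟨C, hC, hMC, hsup⟩ := hkey M ⟨hMn, hMne, hMmin⟩
    refine ⟨N ⊓ C, inferInstance, inf_le_left, ?_, ?_⟩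
    · rw [eq_bot_iff, ← hMC]
      exact inf_le_inf_left M inf_le_right
    · exact hsup N hNn hNp hMN (fun m hm y hy => hNab m (hMN hm) y hy)

end QS
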